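import Pool.Agent.P.MP_488d72_lc.Ix.T
import Pool.Agent.P.MP_488d72_lc.CHj

/-! Orbit relations with at most two orbits in each fibre of a Borel invariant map are Borel. -/

set_option autoImplicit false

universe u v

namespace Pool.Agent.P.MP_488d72_lc.Ix

open Set Filter Topology TopologicalSpace MeasureTheory C

variable {G : Type u} {Y : Type v} [Group G] [TopologicalSpace G] [MulAction G Y]

/-- `O` meets `W y` -/
def Mt (y : Y) (W : Set G) (O : Set Y) : Prop := ∃ g ∈ W, g • y ∈ O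

variable (G) (Op : Set Y → Prop) in
/-- some neighbourhood of the identity moves `y` inside a nowhere dense set -/
def Mg (y : Y) : Prop := ∃ V : Set G, IsOpen V ∧ 1 ∈ V ∧ ∀ O, Op O → Mt y (univ : Set G) O →
  ∃ O', Op O' ∧ O' ⊆ O ∧ Mt y (univ : Set G) O' ∧ ¬ Mt y V O'

variable (G) (Op : Set Y → Prop) in
/-- the orbits have the same closure -/
def Cl (y y' : Y) : Prop := ∀ O, Op O → (Mt y (univ : Set G) O ↔ Mt y' (univ : Set G) O)

variable {Op : Set Y → Prop} {y y' : Y} {O : Set Y}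

omit [TopologicalSpace G] in
theorem mt_smul (g : G) : Mt (g • y) (univ : Set G) O ↔ Mt y (univ : Set G) O :=
  ⟨fun ⟨k, _, e⟩ => ⟨k * g, trivial, by rwa [mul_smul]⟩,
    fun ⟨k, _, e⟩ => ⟨k * g⁻¹, trivial, by rwa [mul_smul, inv_smul_smul]⟩⟩

omit [TopologicalSpace G] in
theorem mt_pre (g : G) :
    Mt y (univ : Set G) ((fun x => g • x) ⁻¹' O) ↔ Mt y (univ : Set G) O :=
  ⟨fun ⟨k, _, e⟩ => ⟨g * k, trivial, by rwa [mul_smul]⟩,
    fun ⟨k, _, e⟩ => ⟨g⁻¹ * k, trivial, by rwa [mem_preimage, mul_smul, smul_inv_smul]⟩⟩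

variable [IsTopologicalGroup G] (h1 : ∀ (g : G) O, Op O → Op ((fun y => g • y) ⁻¹' O))
include h1

omit [IsTopologicalGroup G] [TopologicalSpace G] in
theorem mg_shift {V : Set G} (h : ∀ O, Op O → Mt y (univ : Set G) O →
    ∃ O', Op O' ∧ O' ⊆ O ∧ Mt y (univ : Set G) O' ∧ ¬ Mt y V O') (d : G) (hO : Op O)
    (e : Mt y (univ : Set G) O) :
    ∃ O', Op O' ∧ O' ⊆ O ∧ Mt y (univ : Set G) O' ∧ ∀ v ∈ V, d • v • y ∉ O' := by
  obtain ⟨O', a1, a2, a3, a4⟩ := h _ (h1 d O hO) ((mt_pre d).2 e)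
  exact ⟨_, h1 d⁻¹ _ a1, fun x hx => by simpa using a2 hx, (mt_pre _).2 a3,
    fun v hv c => a4 ⟨v, hv, by simpa using c⟩⟩

theorem Mg.smul (h : Mg G Op y) (g : G) : Mg G Op (g • y) := by
  obtain ⟨V, a1, a2, a3⟩ := h
  refine ⟨(fun k => g⁻¹ * k * g) ⁻¹' V, a1.preimage (by fun_prop), by simpa using a2,
    fun O hO e => ?_⟩
  obtain ⟨O', b1, b2, b3, b4⟩ := mg_shift h1 a3 g hO ((mt_smul g).1 e)
  exact ⟨O', b1, b2, (mt_smul g).2 b3, fun ⟨k, c1, c2⟩ => b4 _ c1 (by simpa [mul_smul] using c2)⟩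

theorem atom (h : ¬ Mg G Op y) {V : Set G} (hV : IsOpen V) (h0 : 1 ∈ V) :
    ∃ O, Op O ∧ y ∈ O ∧ ∀ O', Op O' → O' ⊆ O → Mt y (univ : Set G) O' → Mt y V O' := by
  obtain ⟨A, B, k1, k2, k3, k4, k5⟩ := isOpen_prod_iff.1 (hV.preimage
    (f := fun p : G × G => p.1⁻¹ * p.2) (by fun_prop)) 1 1 (by simpa using h0)
  have : ∃ O, Op O ∧ Mt y (univ : Set G) O ∧
      ∀ O', Op O' → O' ⊆ O → Mt y (univ : Set G) O' → Mt y (A ∩ B) O' := by
    by_contra c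
    refine h ⟨A ∩ B, k1.inter k2, ⟨k3, k4⟩, fun O hO e => by_contra fun c' => c ⟨O, hO, e,
      fun O' a1 a2 a3 => by_contra fun a4 => c' ⟨O', a1, a2, a3, a4⟩⟩⟩
  obtain ⟨O, a1, a2, a3⟩ := this
  obtain ⟨v, hv, e⟩ := a3 O a1 Subset.rfl a2
  refine ⟨_, h1 v O a1, e, fun O' b1 b2 b3 => ?_⟩
  obtain ⟨w, hw, e'⟩ := a3 _ (h1 v⁻¹ O' b1) (fun x hx => by simpa using b2 hx) ((mt_pre _).2 b3)
  exact ⟨v⁻¹ * w, k5 (mk_mem_prod hv.1 hw.2), by rwa [mul_smul]⟩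

theorem bf_step {U : ℕ → Set G} (hU : Bas U) (hi : ∀ O O', Op O → Op O' → Op (O ∩ O'))
    (h2 : ∀ y O, Op O → IsOpen {g : G | g • y ∈ O}) (h : ¬ Mg G Op y) (hC : Cl G Op y y')
    {W W' : Set G} (hW : IsOpen W') (H : ∀ O, Op O → Mt y W O → Mt y' W' O) (i : ℕ)
    (e : U i ⊆ W) : ∃ j, U j ⊆ W' ∧ ∀ O, Op O → Mt y' (U j) O → Mt y (U i) O := by
  obtain ⟨g, hg⟩ := (hU.1 i).2
  obtain ⟨O, a1, a2, a3⟩ := atom h1 (y := g • y)
    (fun c => h (by simpa using c.smul h1 g⁻¹)) ((hU.1 i).1.preimage (continuous_mul_const g))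
    (by simpa using hg)
  obtain ⟨k, b1, b2⟩ := H O a1 ⟨g, e hg, a2⟩
  obtain ⟨j, -, hj⟩ := hU.2 _ (hW.inter (h2 y' O a1)) k ⟨b1, b2⟩
  refine ⟨j, fun a ha => (hj ha).1, fun O' c1 ⟨l, c2, c3⟩ => ?_⟩
  obtain ⟨m, d1, d2⟩ := a3 _ (hi _ _ c1 a1) inter_subset_right ((mt_smul g).2
    ((hC _ (hi _ _ c1 a1)).2 ⟨l, trivial, c3, (hj c2).2⟩))
  exact ⟨m * g, d1, by rw [mul_smul]; exact d2.1⟩

theorem mg_dense [SecondCountableTopology G] (hu : ∀ T : Set (Set Y), (∀ O ∈ T, Op O) → Op (⋃₀ T))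
    (h : Mg G Op y) : ∃ D : ℕ → Set Y, (∀ n, Op (D n)) ∧
      (∀ n O, Op O → Mt y (univ : Set G) O → Mt y (univ : Set G) (O ∩ D n)) ∧
      ∀ w, (∀ n, w ∈ D n) → ¬ ∃ g : G, g • y = w := by
  obtain ⟨V, a1, a2, a3⟩ := h
  obtain ⟨d, hd⟩ := exists_dense_seq G
  refine ⟨fun n => ⋃₀ {O | Op O ∧ ∀ v ∈ V, d n • v • y ∉ O}, fun n => hu _ fun _ h => h.1,
    fun n O hO e => ?_, ?_⟩
  · obtain ⟨O', b1, b2, ⟨g, -, b3⟩, b4⟩ := mg_shift h1 a3 (d n) hO e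
    exact ⟨g, trivial, b2 b3, O', ⟨b1, b4⟩, b3⟩
  · rintro _ hw ⟨g, rfl⟩
    obtain ⟨n, hn⟩ := hd.exists_mem_open (a1.preimage (f := fun k : G => k⁻¹ * g) (by fun_prop))
      ⟨g, by simpa using a2⟩
    obtain ⟨O, b1, b2⟩ := hw n
    exact b1.2 _ hn (by simpa [mul_smul] using b2)

omit h1

theorem orbit_borel [PolishSpace G] [t0 : TopologicalSpace Y] [PolishSpace Y] [ContinuousSMul G Y]
    [MeasurableSpace Y] [BorelSpace Y] {π : Y → ℕ → ℕ} (hπ : Measurable π)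
    (hI : ∀ (g : G) y, π (g • y) = π y) (h3 : ∀ a b c, π a = π b → π a = π c →
      (∃ g : G, g • a = b) ∨ (∃ g : G, g • a = c) ∨ ∃ g : G, g • b = c) :
    MeasurableSet {p : Y × Y | ∃ g : G, g • p.1 = p.2} := by
  rcases isEmpty_or_nonempty Y with _ | _
  · exact Subsingleton.measurableSet
  obtain ⟨τ', hs, hm, hle, h1, h2, hp, hb⟩ := exists_tau G
    (S := fun i : ℕ × ℕ => {y | π y i.1 = i.2})
    (fun i => (Measurable.eq_const ((measurable_pi_apply i.1).comp hπ) i.2).setOf)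
    fun i g y => by simp [hI]
  obtain ⟨τ, rfl⟩ : ∃ t : Unit → TopologicalSpace Y, τ' = t () := ⟨fun _ => τ', rfl⟩
  obtain ⟨U, hU⟩ := exists_bas G
  obtain ⟨O, hO⟩ := exists_bas Y
  obtain ⟨B, hB1, hB2⟩ := @exists_bas Y (τ ()) hs _
  let Op : Set Y → Prop := fun O => IsOpen[τ ()] O
  have hi : ∀ O O', Op O → Op O' → Op (O ∩ O') := fun _ _ => @IsOpen.inter Y (τ ()) _ _
  have hu : ∀ T : Set (Set Y), (∀ O ∈ T, Op O) → Op (⋃₀ T) := fun _ => @isOpen_sUnion Y (τ ()) _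
  have m1 : ∀ (W : Set G) i, Measurable fun y => Mt y W (B i) := fun W i => by
    refine measurableSet_setOfPred.1 (hm _ ?_)
    simp only [Mt, ofPred_exists, ← exists_prop]
    exact @isOpen_biUnion _ _ (τ ()) _ _ fun g _ => h1 g _ (hB1 i).1
  have b1 : ∀ (y : Y) (W : Set G) O, Op O → Mt y W O → ∃ i, B i ⊆ O ∧ Mt y W (B i) :=
    fun y W O hO ⟨g, a1, a2⟩ => let ⟨i, c1, c2⟩ := hB2 O hO _ a2; ⟨i, c2, g, a1, c1⟩
  have b2 : ∀ (y : Y) {W W' : Set G} {O O' : Set Y}, W ⊆ W' → O ⊆ O' → Mt y W O → Mt y W' O' :=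
    fun y _ _ _ _ a b ⟨g, c, d⟩ => ⟨g, a c, b d⟩
  have m2 : Measurable (Mg G Op) := by
    have : Mg G Op = fun y => ∃ k, 1 ∈ U k ∧ ∀ i, Mt y (univ : Set G) (B i) →
        ∃ j, B j ⊆ B i ∧ Mt y (univ : Set G) (B j) ∧ ¬ Mt y (U k) (B j) := by
      ext y
      constructor
      · rintro ⟨V, a1, a2, a3⟩
        obtain ⟨k, c1, c2⟩ := hU.2 V a1 1 a2
        refine ⟨k, c1, fun i e => ?_⟩
        obtain ⟨O', d1, d2, d3, d4⟩ := a3 _ (hB1 i).1 e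
        obtain ⟨j, e1, e2⟩ := b1 y _ _ d1 d3
        exact ⟨j, e1.trans d2, e2, fun c => d4 (b2 y c2 e1 c)⟩
      · rintro ⟨k, a1, a2⟩
        refine ⟨U k, (hU.1 k).1, a1, fun O hO e => ?_⟩
        obtain ⟨i, e1, e2⟩ := b1 y _ _ hO e
        obtain ⟨j, d1, d2⟩ := a2 i e2
        exact ⟨B j, (hB1 j).1, d1.trans e1, d2⟩
    rw [this]
    exact Measurable.exists fun k => measurable_const.and (Measurable.forall fun i =>
      (m1 _ i).imp (Measurable.exists fun j => measurable_const.and ((m1 _ j).and (m1 _ j).not)))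
  have key : {p : Y × Y | ∃ g : G, g • p.1 = p.2} = {p | (∀ n, π p.1 n = π p.2 n) ∧
      (∀ i, Mt p.1 (univ : Set G) (B i) ↔ Mt p.2 (univ : Set G) (B i)) ∧
      (Mg G Op p.1 ↔ Mg G Op p.2)} := by
    ext ⟨y, y'⟩
    simp only [mem_ofPred_eq]
    constructor
    · rintro ⟨g, rfl⟩
      exact ⟨fun n => by rw [hI], fun i => (mt_smul g).symm, fun h => h.smul h1 g,
        fun h => by simpa using h.smul h1 g⁻¹⟩
    rintro ⟨a1, a2, a3⟩
    replace a1 : π y = π y' := funext a1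
    have hC : Cl G Op y y' := fun O hO =>
      ⟨fun e => let ⟨i, c1, c2⟩ := b1 _ _ O hO e; b2 _ Subset.rfl c1 ((a2 i).1 c2),
        fun e => let ⟨i, c1, c2⟩ := b1 _ _ O hO e; b2 _ Subset.rfl c1 ((a2 i).2 c2)⟩
    have hC' : Cl G Op y' y := fun O hO => (hC O hO).symm
    by_cases hM : Mg G Op y
    · obtain ⟨D, d1, d2, d3⟩ := mg_dense h1 hu hM
      obtain ⟨D', e1, e2, e3⟩ := mg_dense h1 hu (a3.1 hM)
      obtain ⟨w, hw⟩ := hb (range fun g : G => g • y)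
        (fun n => D n ∩ D' n ∩ {w | π w n = π y n}) ⟨_, 1, rfl⟩
        (fun n => hi _ _ (hi _ _ (d1 n) (e1 n)) (hp (n, π y n))) (by
          rintro n O hO ⟨_, c, g, rfl⟩
          have k1 := hi _ _ hO (d1 n)
          obtain ⟨k, -, c⟩ := (hC _ (hi _ _ k1 (e1 n))).2
            (e2 n _ k1 ((hC _ k1).1 (d2 n O hO ⟨g, trivial, c⟩)))
          exact ⟨k • y, ⟨c.1.1, ⟨c.1.2, c.2⟩, congrFun (hI k y) n⟩, k, rfl⟩)
      rw [mem_iInter] at hw
      exact ((h3 y y' w a1 (funext fun n => (hw n).2.symm)).resolve_right fun c =>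
        c.elim (d3 w fun n => (hw n).1.1) (e3 w fun n => (hw n).1.2))
    · have hM' := mt a3.2 hM
      obtain ⟨j, -, c⟩ := bf_step h1 hU hi h2 hM hC isOpen_univ (fun O hO => (hC O hO).1) 0
        (subset_univ _)
      obtain ⟨g, g', e⟩ := orbit_of_bf hU hO (x := y') (y := y)
        (S := fun j i => ∀ O, Op O → Mt y' (U j) O → Mt y (U i) O)
        (T := fun i j => ∀ O, Op O → Mt y (U i) O → Mt y' (U j) O)
        (fun _ _ h k => h _ (hle _ (hO.1 k).1))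
        (fun _ i h => bf_step h1 hU hi h2 hM' hC' (hU.1 i).1 h)
        (fun _ j h => bf_step h1 hU hi h2 hM hC (hU.1 j).1 h) c
      exact ⟨g⁻¹ * g', by rw [mul_smul, ← e, inv_smul_smul]⟩
  rw [key]
  refine Measurable.setOf ((Measurable.forall fun n => ?_).and ((Measurable.forall fun i =>
    ((m1 _ i).comp measurable_fst).iff ((m1 _ i).comp measurable_snd)).and
    ((m2.comp measurable_fst).iff (m2.comp measurable_snd))))
  exact Measurable.eq ((measurable_pi_apply n).comp (hπ.comp measurable_fst))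
    ((measurable_pi_apply n).comp (hπ.comp measurable_snd))

end Pool.Agent.P.MP_488d72_lc.Ix
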