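import Pool.Agent.P.MP_488d72_lc.Ix.R
import Pool.Agent.P.MP_488d72_lc.Ix.F
import Pool.Agent.P.MP_488d72_lc.CMain

/-! The relation `E2` is ccc idealistic, not Borel, and bireducible with no orbit relation. -/

set_option autoImplicit false

universe u v

namespace Pool.Agent.P.MP_488d72_lc.Ix

open Ordinal Set MeasureTheory C

noncomputable section

variable {α : Ordinal.{0}} {p q : N × N}

theorem measurable_ht (hα : α < ω₁) : Measurable fun z => ht z ≤ α := by
  have : (fun z => ht z ≤ α) = fun z => ∀ n, Le z α n → ∃ β : Iio α, Le z β.1 n := by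
    ext z
    refine ⟨fun h n e => ?_, fun h => not_lt.1 fun c => ?_⟩
    · have e' := (rk_le_of_Le e).trans_lt hα
      exact ⟨⟨_, (rk_lt_ht e').trans_le h⟩, (rk_le_iff e').1 le_rfl⟩
    · obtain ⟨n, hn⟩ := exists_node c
      obtain ⟨β, e⟩ := h n ((rk_le_iff hα).1 hn.le)
      exact lt_irrefl α (hn.ge.trans_lt ((rk_le_of_Le e).trans_lt β.2))
  rw [this]
  have := (countable_Iio hα).to_subtype
  exact Measurable.forall fun n => (measurable_Le hα n).imp
    (Measurable.exists fun β => measurable_Le (lt_trans β.2 hα) n)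

theorem measurable_ht_lt (hα : α < ω₁) : Measurable fun z => ht z < α := by
  have : (fun z => ht z < α) = fun z => ∃ β : Iio α, ht z ≤ β.1 := by
    ext z
    exact ⟨fun h => ⟨⟨_, h⟩, le_rfl⟩, fun ⟨β, h⟩ => h.trans_lt β.2⟩
  rw [this]
  have := (countable_Iio hα).to_subtype
  exact Measurable.exists fun β => measurable_ht (lt_trans β.2 hα)

open Classical in
/-- the tag of the root in the forcing attached to a class -/
def ta (p : N × N) : Ordinal.{0} := if rk p.2 0 = ht p.1 then ht p.1 else ht p.1 + 1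

theorem ta_lt (p : N × N) : ta p < ω₁ := by
  unfold ta
  split_ifs
  exacts [ht_lt _, succ_lt (ht_lt _)]

theorem ta_eq : ta p = ht p.1 ↔ rk p.2 0 = ht p.1 := by
  unfold ta
  split_ifs with h
  exacts [iff_of_true rfl h, iff_of_false (lt_add_one _).ne' h]

theorem E2_ta : E2 p q ↔ p.1 = q.1 ∧ ta p = ta q := and_congr_right fun e =>
  ⟨fun h => if_congr h (congrArg ht e) (congrArg (ht · + 1) e),
    fun h => by rw [← ta_eq, ← ta_eq, h, e]⟩

theorem measurableSet_ta (hα : α < ω₁) : MeasurableSet {p | ta p ≤ α} := by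
  have : {p | ta p ≤ α} = {p | ht p.1 < α ∨ (rk p.2 0 = α ∧ ht p.1 ≤ α ∧ ¬ ht p.1 < α)} := by
    ext p
    simp only [mem_ofPred_eq, ta]
    split_ifs with h
    · exact ⟨fun e => e.eq_or_lt.symm.imp_right fun e' => ⟨h.trans e', e, e'.not_lt⟩,
        fun e => e.elim le_of_lt fun e => e.2.1⟩
    · exact ⟨fun e => Or.inl (Order.add_one_le_iff.1 e), fun e => e.elim Order.add_one_le_iff.2
        fun e => absurd (e.1.trans (e.2.1.antisymm (not_lt.1 e.2.2)).symm) h⟩
  rw [this]
  exact (((measurable_ht_lt hα).comp measurable_fst).or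
    (((measurableSet_setOfPred.1 (measurableSet_rk_eq hα)).comp measurable_snd).and
      (((measurable_ht hα).comp measurable_fst).and
        ((measurable_ht_lt hα).comp measurable_fst).not))).setOf

/-- The ideal attached to a class `K`. -/
def jdl (K : Set (N × N)) : Set (Set (N × N)) :=
  {S | S ⊆ K ∧ ∀ p ∈ K, Frc (rt (ta p)) 1 (C.sec (ta p) S p.1)ᶜ}

variable {K S T : Set (N × N)}

theorem mem_jdl : S ∈ jdl {q | E2 p q} ↔
    S ⊆ {q | E2 p q} ∧ Frc (rt (ta p)) 1 (C.sec (ta p) S p.1)ᶜ :=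
  and_congr_right fun _ => ⟨fun h => h p ⟨rfl, Iff.rfl⟩, fun h q hq => by
    rwa [← (E2_ta.1 hq).1, ← (E2_ta.1 hq).2]⟩

theorem frc_cls (p : N × N) : Frc (rt (ta p)) 1 (C.sec (ta p) {q | E2 p q} p.1) :=
  (frc_rk (ta_lt p)).mono fun g hg => ⟨rfl, by
    rw [show rk (p.1, code (up g)).2 0 = ta p from hg]
    exact ta_eq.symm⟩

theorem empty_mem_jdl (K : Set (N × N)) : ∅ ∈ jdl K :=
  ⟨empty_subset _, fun _ _ => frc_of_subset fun _ _ => notMem_empty _⟩

theorem jdl_mono (hS : S ∈ jdl K) (h : T ⊆ S) : T ∈ jdl K :=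
  ⟨h.trans hS.1, fun x hx => (hS.2 x hx).mono fun _ hg hT => hg (h hT)⟩

theorem iUnion_mem_jdl {S : ℕ → Set (N × N)} (hS : ∀ n, S n ∈ jdl K) : ⋃ n, S n ∈ jdl K := by
  refine ⟨iUnion_subset fun n => (hS n).1, fun x hx => ?_⟩
  refine (frc_iInter.mpr fun n => (hS n).2 x hx).mono fun g hg => ?_
  simpa [C.sec] using hg

theorem class_not_mem_jdl (p : N × N) : {q | E2 p q} ∉ jdl {q | E2 p q} := fun h => by
  obtain ⟨g, -, h1, h2⟩ := ((mem_jdl.1 h).2.and (frc_cls p)).exists
  exact h1 h2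

theorem measurableSet_jdl {A : Set ((N × N) × (N × N))} (hA : MeasurableSet A) :
    MeasurableSet {p | {q | E2 p q ∧ (p, q) ∈ A} ∈ jdl {q | E2 p q}} := by
  have hm : Measurable fun r : (N × N) × N => (r.1, (r.1.1, r.2)) := by fun_prop
  convert measurableSet_frc (fun α => measurableSet_ta) (hm hA.compl) using 2 with p
  ext p
  rw [mem_jdl]
  exact ⟨fun h => (h.2.and (frc_cls p)).mono fun g hg hA' => hg.1 ⟨hg.2, hA'⟩,
    fun h => ⟨fun _ hy => hy.1, h.mono fun g hg hA' => hg hA'.2⟩⟩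

theorem jdl_ccc (p : N × N) {F : Set (Set (N × N))}
    (h1 : ∀ B ∈ F, MeasurableSet B ∧ B ⊆ {q | E2 p q} ∧ B ∉ jdl {q | E2 p q})
    (h2 : F.Pairwise fun B B' => B ∩ B' ∈ jdl {q | E2 p q}) : F.Countable :=
  have := countable_Let (ta_lt p)
  ccc (S := fun B => C.sec (ta p) B p.1) (fun B hB => C.baire_sec (h1 B hB).1 _)
    (fun B hB h => (h1 B hB).2.2 (mem_jdl.2 ⟨(h1 B hB).2.1, h⟩))
    fun _ hB _ hB' e => (mem_jdl.1 (h2 hB hB' e)).2

theorem measurableSet_cls (p : N × N) : MeasurableSet {q | E2 p q} := by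
  have m1 : Measurable fun q : N × N => q.1 = p.1 := Measurable.eq_const measurable_fst _
  have m2 : Measurable fun q : N × N => rk q.2 0 = ht p.1 :=
    (measurableSet_setOfPred.1 (measurableSet_rk_eq (ht_lt _))).comp measurable_snd
  have : {q | E2 p q} = {q | q.1 = p.1 ∧ (rk p.2 0 = ht p.1 ↔ rk q.2 0 = ht p.1)} :=
    Set.ext fun q => ⟨fun h => ⟨h.1.symm, h.1 ▸ h.2⟩, fun h => ⟨h.1.symm, h.1 ▸ h.2⟩⟩
  rw [this]
  exact (m1.and (measurable_const.iff m2)).setOf

theorem two_classes (a b c : N × N) (h : a.1 = b.1) (h' : a.1 = c.1) :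
    E2 a b ∨ E2 a c ∨ E2 b c := by
  have h'' := h.symm.trans h'
  unfold E2
  tauto

theorem not_borel : ¬ MeasurableSet {p : (N × N) × (N × N) | E2 p.1 p.2} := fun h => by
  obtain ⟨t0, h0⟩ := exists_rk_top
  have m : Measurable fun r : (N × N) × N => rk r.1.2 0 = ht r.2 := by
    have hm : Measurable fun r : (N × N) × N => ((r.2, r.1.2), (r.2, t0)) := by fun_prop
    convert measurableSet_setOfPred.1 (hm h).compl using 2 with r
    simp [E2, h0, (ht_lt r.2).ne']
  obtain ⟨e, he⟩ := bound (fun _ => {p | ∃ z, rk p.2 0 = ht z}) fun _ => analytic_ex m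
  obtain ⟨k1, k2⟩ := he t0 0
  have k3 := k2 fun t ⟨z, hz⟩ => hz.trans_lt (ht_lt z)
  obtain ⟨z, hz⟩ := exists_rk k3
  obtain ⟨t, ht'⟩ := exists_rk (ht_lt z)
  exact (k1 t ⟨z, ht'⟩).not_gt (hz.ge.trans_lt ((rk_lt_ht (hz.trans_lt k3)).trans_eq ht'.symm))

theorem analytic_E2 : AnalyticSet {p : (N × N) × (N × N) | E2 p.1 p.2} := by
  obtain ⟨f, hf, h⟩ := exists_red
  have : ∀ p q, E2 p q ↔ ∃ w : N × N, (∀ a, w.2 (w.1 a) = a) ∧ (∀ a, w.1 (w.2 a) = a) ∧
      ∀ a b, f q (w.1 a) (w.1 b) = f p a b := fun p q => (h p q).trans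
    ⟨fun ⟨σ, e⟩ => ⟨(σ, σ.symm), σ.left_inv, σ.right_inv, e⟩,
      fun ⟨w, a, b, e⟩ => ⟨⟨w.1, w.2, a, b⟩, e⟩⟩
  simp only [this]
  have ev : Measurable fun p : N × ℕ => p.1 p.2 :=
    measurable_from_prod_countable_left fun n => measurable_pi_apply n
  have ev2 : Measurable fun p : (ℕ → N) × ℕ => p.1 p.2 :=
    measurable_from_prod_countable_left fun n => measurable_pi_apply n
  refine analytic_ex ((Measurable.forall fun a => Measurable.eq_const ?_ a).and
    ((Measurable.forall fun a => Measurable.eq_const ?_ a).and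
      (Measurable.forall fun a => Measurable.forall fun b => Measurable.eq ?_ ?_)))
  · exact ev.comp (measurable_snd.snd.prodMk ((measurable_pi_apply a).comp measurable_snd.fst))
  · exact ev.comp (measurable_snd.fst.prodMk ((measurable_pi_apply a).comp measurable_snd.snd))
  · exact ev.comp ((ev2.comp ((hf.comp measurable_fst.snd).prodMk
      ((measurable_pi_apply a).comp measurable_snd.fst))).prodMk
      ((measurable_pi_apply b).comp measurable_snd.fst))
  · exact (measurable_pi_apply b).comp ((measurable_pi_apply a).comp (hf.comp measurable_fst.fst))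

theorem not_bired {G : Type u} {Y : Type v} [Group G] [TopologicalSpace G]
    [IsTopologicalGroup G] [PolishSpace G] [TopologicalSpace Y] [PolishSpace Y] [MulAction G Y]
    [ContinuousSMul G Y] [MeasurableSpace Y] [BorelSpace Y] {f : N × N → Y} (hf : Measurable f)
    (hE : ∀ p q, E2 p q ↔ ∃ g : G, g • f p = f q) {k : Y → N × N} (hk : Measurable k)
    (hF : ∀ y y', (∃ g : G, g • y = y') ↔ E2 (k y) (k y')) : False := by
  have := orbit_borel (G := G) (π := fun y => (k y).1) hk.fst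
    (fun g y => ((hF y _).1 ⟨g, rfl⟩).1.symm) fun a b c h h' => by
      simpa only [hF] using two_classes _ _ _ h h'
  refine not_borel ?_
  simp only [hE]
  exact ((hf.comp measurable_fst).prodMk (hf.comp measurable_snd)) this

end

end Pool.Agent.P.MP_488d72_lc.Ix
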