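import Pool.Agent.P.MP_488d72_lc.Ix.U
import Pool.Agent.P.MP_488d72_lc.CSig

/-! The relation with two classes in each fibre and its reduction to isomorphism. -/

set_option autoImplicit false

namespace Pool.Agent.P.MP_488d72_lc.Ix

open Ordinal Set C

noncomputable section

/-- the least ordinal above the ranks of all well-founded nodes -/
def ht (z : N) : Ordinal.{0} := ⨆ n : {n // rk z n < ω₁}, rk z n + 1

variable {z t t' : N} {β : Ordinal.{0}} {p q : N × N}

theorem ht_lt (z : N) : ht z < ω₁ := Ordinal.iSup_lt_omega_one fun n => succ_lt n.2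

theorem rk_lt_ht {n : ℕ} (h : rk z n < ω₁) : rk z n < ht z :=
  (lt_add_one _).trans_le (Ordinal.le_iSup (fun n : {n // rk z n < ω₁} => rk z n + 1) ⟨n, h⟩)

theorem exists_node (h : β < ht z) : ∃ n, rk z n = β := by
  obtain ⟨⟨n, h1⟩, h2⟩ := Ordinal.lt_iSup_iff.1 h
  replace h2 : β ≤ rk z n := Order.lt_add_one_iff.1 h2
  generalize e : rk z n = α at h1 h2
  induction α using WellFoundedLT.induction generalizing n with
  | ind α ih =>
    subst e
    rcases h2.eq_or_lt with h2 | h2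
    · exact ⟨n, h2.symm⟩
    · obtain ⟨b, hb, h3⟩ := exists_child h2
      exact ih _ (rk_child_lt h1 hb) b rfl ((rk_child_lt h1 hb).trans h1) h3

/-- the equivalence relation -/
def E2 (p q : N × N) : Prop := p.1 = q.1 ∧ (rk p.2 0 = ht p.1 ↔ rk q.2 0 = ht q.1)

abbrev W : Type := ℕ × ℕ

/-- three forests: `t`, `z` and loops -/
def fo (p : N × N) (i : ℕ) : N := if i = 0 then p.2 else if i = 1 then p.1 else fun n => n + 1

def r (p : N × N) (w : W) : Ordinal.{0} := rk (fo p w.1) w.2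

def ch (p : N × N) (w w' : W) : Prop := w'.1 = w.1 ∧ fo p w.1 w'.2 = w.2 + 1

def r2 (p : N × N) (k : W × W) : Ordinal.{0} := min (r p k.1) (r p k.2)

def ch2 (p : N × N) (k k' : W × W) : Prop := ch p k.1 k'.1 ∧ ch p k.2 k'.2

theorem r_zero : r p (0, 0) = rk p.2 0 := rfl

theorem r_one (n : ℕ) : r p (1, n) = rk p.1 n := rfl

theorem r_ne {w : W} (h : w.1 ≠ 0) (t t' : N) : r (z, t) w = r (z, t') w := by
  simp [r, fo, h]

theorem r_top {w : W} (h : w.1 ≠ 0) (h' : w.1 ≠ 1) : r p w = ω₁ := by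
  simp only [r, fo, h, h', if_false]
  exact rk_top (D := fun _ => True) (fun a _ => ⟨a, rfl, trivial⟩) trivial

theorem r_down {w : W} (h : β < r p w) : ∃ w', ch p w w' ∧ β ≤ r p w' :=
  let ⟨b, h1, h2⟩ := exists_child h; ⟨(w.1, b), ⟨rfl, h1⟩, h2⟩

theorem r_up {w w' : W} (hβ : β < ω₁) (h : ch p w w') (e : β ≤ r p w') : β < r p w := by
  rw [r, h.1] at e
  exact (lt_add_one β).trans_le (succ_le_rk hβ h.2 e)

theorem r2_down {k : W × W} (h : β < r2 p k) : ∃ k', ch2 p k k' ∧ β ≤ r2 p k' :=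
  let ⟨a, a1, a2⟩ := r_down (lt_min_iff.1 h).1
  let ⟨b, b1, b2⟩ := r_down (lt_min_iff.1 h).2
  ⟨(a, b), ⟨a1, b1⟩, le_min a2 b2⟩

theorem r2_up {k k' : W × W} (hβ : β < ω₁) (h : ch2 p k k') (e : β ≤ r2 p k') : β < r2 p k :=
  lt_min (r_up hβ h.1 (e.trans (min_le_left _ _))) (r_up hβ h.2 (e.trans (min_le_right _ _)))

theorem realize {m : Ordinal.{0}} {w : W} (hm : m ≤ ht p.1) (h1 : β ≤ m) (h2 : β ≤ r p w) :
    ∃ u, min (r2 p (w, u)) m = β := by
  rcases h1.eq_or_lt with rfl | h1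
  · exact ⟨w, by rw [r2, min_self, min_eq_right h2]⟩
  · obtain ⟨n, hn⟩ := exists_node (h1.trans_le hm)
    exact ⟨(1, n), by rw [r2, r_one, hn, min_eq_right h2, min_eq_left h1.le]⟩

/-- the states -/
inductive St
  | jk
  | rt
  | rr (w : W)
  | nn (o : Option ℕ) (k : W × W)

open St

def dec0 : (Bool × Bool) × Option ℕ × W × W → St
  | ((false, false), _) => jk
  | ((false, true), _) => rt
  | ((true, false), a) => rr a.2.1
  | ((true, true), a) => nn a.1 a.2

theorem dec0_surj : Function.Surjective dec0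
  | jk => ⟨((false, false), default), rfl⟩
  | rt => ⟨((false, true), default), rfl⟩
  | rr w => ⟨((true, false), none, w, w), rfl⟩
  | nn o k => ⟨((true, true), o, k), rfl⟩

instance : Countable St := dec0_surj.countable

instance : Nonempty St := ⟨jk⟩

def dec : ℕ → St := (exists_surjective_nat St).choose

theorem dec_surj : Function.Surjective dec := (exists_surjective_nat St).choose_spec

def lab : St → ℕ
  | jk => 0
  | rt => 1
  | rr _ => 2
  | nn none _ => 3
  | nn (some v) _ => v + 4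

theorem lab_rt {s : St} (h : lab rt = lab s) : s = rt := by
  rcases s with _ | _ | _ | ⟨_ | _, _⟩ <;> simp [lab] at h ⊢

theorem lab_rr {s : St} {w : W} (h : lab (rr w) = lab s) : ∃ w', s = rr w' := by
  rcases s with _ | _ | _ | ⟨_ | _, _⟩ <;> simp [lab] at h ⊢

theorem lab_nn {s : St} {o : Option ℕ} {k : W × W} (h : lab (nn o k) = lab s) :
    ∃ k', s = nn o k' := by
  rcases o with _ | v <;> rcases s with _ | _ | _ | ⟨_ | _, _⟩ <;> simp [lab] at h ⊢
  exact h.symm

/-- the transitions -/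
def st (p : N × N) (s a : St) : Prop :=
  a = jk ∨ (∃ w, s = rt ∧ a = rr w ∧ (w = (0, 0) ∨ w.1 ≠ 0)) ∨
    (∃ w k, s = rr w ∧ a = nn none k ∧ ch p w k.1) ∨
    ∃ o k v k', s = nn o k ∧ a = nn (some v) k' ∧ (∀ b, o = some b → p.1 v = b + 1) ∧
      (ch2 p k k' ∨ ch p (1, v) k'.1)

theorem st_rt {w : W} : st p rt (rr w) ↔ w = (0, 0) ∨ w.1 ≠ 0 := by simp [st]

theorem st_rr {w : W} {k : W × W} : st p (rr w) (nn none k) ↔ ch p w k.1 := by
  constructor
  · rintro (h | ⟨_, h, _⟩ | ⟨_, _, h1, h2, h3⟩ | ⟨_, _, _, _, h, _⟩)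
    · cases h
    · cases h
    · cases h1; cases h2; exact h3
    · cases h
  · exact fun h => Or.inr (Or.inr (Or.inl ⟨w, k, rfl, rfl, h⟩))

theorem st_nn {o : Option ℕ} {k k' : W × W} {v : ℕ} : st p (nn o k) (nn (some v) k') ↔
    (∀ b, o = some b → p.1 v = b + 1) ∧ (ch2 p k k' ∨ ch p (1, v) k'.1) := by
  constructor
  · rintro (h | ⟨_, h, _⟩ | ⟨_, _, h, _⟩ | ⟨_, _, _, _, h1, h2, h3⟩)
    · cases h
    · cases h
    · cases h
    · cases h1; cases h2; exact h3
  · exact fun h => Or.inr (Or.inr (Or.inr ⟨o, k, v, k', rfl, rfl, h⟩))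

def mu (z : N) : Option ℕ → Ordinal.{0}
  | none => ht z
  | some v => min (rk z v) (ht z)

open Classical in
/-- the invariant of a state -/
def val (p : N × N) : St → Ordinal.{0}
  | jk => 0
  | rt => if rk p.2 0 = ht p.1 then 1 else 0
  | rr w => min (r p w) (ht p.1 + 1)
  | nn o k => min (r2 p k) (mu p.1 o)

theorem forth {s s' a : St} (h1 : lab s = lab s') (h2 : val (z, t) s = val (z, t') s')
    (h : st (z, t) s a) : ∃ a', st (z, t') s' a' ∧ lab a = lab a' ∧
      val (z, t) a = val (z, t') a' := by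
  have hz := ht_lt z
  rcases h with rfl | ⟨w, rfl, rfl, h⟩ | ⟨w, k, rfl, rfl, h⟩ | ⟨o, k, v, k', rfl, rfl, h, h'⟩
  · exact ⟨jk, Or.inl rfl, rfl, rfl⟩
  · obtain rfl := lab_rt h1
    rcases h with rfl | h
    · rcases lt_trichotomy (rk t 0) (ht z) with c | c | c
      · obtain ⟨n, hn⟩ := exists_node c
        exact ⟨rr (1, n), st_rt.2 (Or.inr one_ne_zero), rfl, by
          simp only [val, r_zero, r_one, hn]⟩
      · have : rk t' 0 = ht z := by
          by_contra c'
          simp [val, c, c'] at h2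
        exact ⟨rr (0, 0), st_rt.2 (Or.inl rfl), rfl, by simp only [val, r_zero, c, this]⟩
      · refine ⟨rr (2, 0), st_rt.2 (Or.inr two_ne_zero), rfl, ?_⟩
        simp only [val, r_zero]
        rw [r_top two_ne_zero (by simp), min_eq_right (Order.add_one_le_of_lt c),
          min_eq_right (succ_lt hz).le]
    · exact ⟨rr w, st_rt.2 (Or.inr h), rfl, by simp only [val, r_ne h t t']⟩
  · obtain ⟨w', rfl⟩ := lab_rr h1
    have a1 : min (r2 (z, t) k) (ht z) ≤ ht z := min_le_right _ _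
    have a2 := lt_min (r_up (a1.trans_lt hz) h ((min_le_left _ _).trans (min_le_left _ _)))
      (a1.trans_lt (lt_add_one _))
    obtain ⟨w'', b1, b2⟩ := r_down ((a2.trans_eq h2).trans_le (min_le_left _ _))
    obtain ⟨u, hu⟩ := realize (p := (z, t')) le_rfl a1 b2
    exact ⟨nn none (w'', u), st_rr.2 b1, rfl, hu.symm⟩
  · obtain ⟨l, rfl⟩ := lab_nn h1
    have a1 : min (r2 (z, t) k') (mu z (some v)) ≤ mu z (some v) := min_le_right _ _
    have a2 : mu z (some v) ≤ ht z := min_le_right _ _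
    rcases lt_or_ge (min (r2 (z, t) k') (mu z (some v))) (rk z v) with c | c
    · obtain ⟨w, b1, b2⟩ := r_down (p := (z, t')) (w := (1, v)) c
      obtain ⟨u, hu⟩ := realize (p := (z, t')) a2 a1 b2
      exact ⟨nn (some v) (w, u), st_nn.2 ⟨h, Or.inr b1⟩, rfl, hu.symm⟩
    · have b1 : rk z v < ω₁ := (c.trans (a1.trans a2)).trans_lt hz
      have b2 : rk z v ≤ r2 (z, t) k' := c.trans (min_le_left _ _)
      have b3 : mu z (some v) = rk z v := min_eq_left (rk_lt_ht b1).le
      have b4 := h'.resolve_right fun e =>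
        lt_irrefl (rk z v) (r_up b1 e (b2.trans (min_le_left _ _)))
      have b5 : rk z v < mu z o := by
        rcases o with _ | b
        · exact rk_lt_ht b1
        · exact lt_min ((lt_add_one _).trans_le (succ_le_rk b1 (h b rfl) le_rfl)) (rk_lt_ht b1)
      obtain ⟨l', c1, c2⟩ := r2_down (((lt_min (r2_up b1 b4 b2) b5).trans_eq h2).trans_le
        (min_le_left _ _))
      refine ⟨nn (some v) l', st_nn.2 ⟨h, Or.inl c1⟩, rfl, ?_⟩
      simp only [val, b3, min_eq_right b2, min_eq_right c2]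

/-- bisimulations -/
def Bis (p q : N × N) (B : St → St → Prop) : Prop := ∀ s s', B s s' → lab s = lab s' ∧
  (∀ a, st p s a → ∃ a', st q s' a' ∧ B a a') ∧ ∀ a', st q s' a' → ∃ a, st p s a ∧ B a a'

variable {B : St → St → Prop}

theorem Bis.symm (h : Bis p q B) : Bis q p fun a b => B b a :=
  fun s s' e => ⟨(h s' s e).1.symm, (h s' s e).2.2, (h s' s e).2.1⟩

theorem sep_step (h : Bis (z, t) (z, t') B) {o : Option ℕ} {k l : W × W} {v : ℕ}
    (e : B (nn o k) (nn o l)) (ho : ∀ b, o = some b → z v = b + 1) (hv : rk z v < ω₁)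
    (ih : ∀ k l, B (nn (some v) k) (nn (some v) l) → rk z v ≤ r2 (z, t) k → rk z v ≤ r2 (z, t') l)
    (c : rk z v < r2 (z, t) k) : rk z v < r2 (z, t') l := by
  obtain ⟨k', a1, a2⟩ := r2_down c
  obtain ⟨a', b1, b2⟩ := (h _ _ e).2.1 _ (st_nn.2 ⟨ho, Or.inl a1⟩)
  obtain ⟨l', rfl⟩ := lab_nn (h _ _ b2).1
  have := ih _ _ b2 a2
  exact r2_up hv ((st_nn.1 b1).2.resolve_right fun e =>
    lt_irrefl (rk z v) (r_up hv e (this.trans (min_le_left _ _)))) this

theorem sep_some (h : Bis (z, t) (z, t') B) {v : ℕ} (hv : rk z v < ω₁) :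
    ∀ k l, B (nn (some v) k) (nn (some v) l) → rk z v ≤ r2 (z, t) k → rk z v ≤ r2 (z, t') l := by
  generalize e : rk z v = α
  induction α using WellFoundedLT.induction generalizing v with
  | ind α ih =>
    subst e
    intro k l e c
    by_contra c'
    obtain ⟨u, a1, a2⟩ := exists_child (not_le.1 c')
    have a3 := rk_child_lt hv a1
    exact a2.not_gt (sep_step h e (fun b hb => Option.some.inj hb ▸ a1) (a3.trans hv)
      (ih _ a3 (a3.trans hv) rfl) (a3.trans_le c))

theorem sep_none (h : Bis (z, t) (z, t') B) {k l : W × W} (e : B (nn none k) (nn none l))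
    (hβ : β ≤ ht z) (c : β ≤ r2 (z, t) k) : β ≤ r2 (z, t') l := by
  by_contra c'
  obtain ⟨v, hv⟩ := exists_node ((not_le.1 c').trans_le hβ)
  have a1 : rk z v < β := hv ▸ not_le.1 c'
  have a2 := (a1.trans_le hβ).trans (ht_lt z)
  exact hv.not_lt (sep_step h e (fun _ hb => nomatch hb) a2 (sep_some h a2) (a1.trans_le c))

theorem sep_rr (h : Bis (z, t) (z, t') B) {w w' : W} (e : B (rr w) (rr w'))
    (hβ : β ≤ ht z) (c : β < r (z, t) w) : β < r (z, t') w' := by
  obtain ⟨u, a1, a2⟩ := r_down c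
  obtain ⟨a', b1, b2⟩ := (h _ _ e).2.1 (nn none (u, u)) (st_rr.2 a1)
  obtain ⟨l, rfl⟩ := lab_nn (h _ _ b2).1
  exact r_up (hβ.trans_lt (ht_lt z)) (st_rr.1 b1)
    ((sep_none h b2 hβ (le_min a2 a2)).trans (min_le_left _ _))

theorem sep_rt (h : Bis (z, t) (z, t') B) (e : B rt rt) (c : rk t 0 = ht z) : rk t' 0 = ht z := by
  obtain ⟨a', b1, b2⟩ := (h _ _ e).2.1 (rr (0, 0)) (st_rt.2 (Or.inl rfl))
  obtain ⟨w, rfl⟩ := lab_rr (h _ _ b2).1
  have a1 : r (z, t') w = ht z := le_antisymm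
    (not_lt.1 fun c' => c.not_gt (sep_rr h.symm b2 le_rfl c'))
    (not_lt.1 fun c' => lt_irrefl _ (sep_rr h b2 c'.le (c'.trans_eq c.symm)))
  rcases st_rt.1 b1 with rfl | b1
  · exact a1
  · by_cases b3 : w.1 = 1
    · obtain ⟨i, n⟩ := w
      obtain rfl : i = 1 := b3
      exact absurd a1 (rk_lt_ht (a1.trans_lt (ht_lt z))).ne
    · exact absurd ((r_top b1 b3).symm.trans a1) (ht_lt z).ne'

open Classical in
/-- the transitions as a total function, each child infinitely often -/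
def nx (p : N × N) (s : St) (n : ℕ) : St :=
  if st p s (dec n.unpair.1) then dec n.unpair.1 else jk

theorem st_nx (p : N × N) (s : St) (n : ℕ) : st p s (nx p s n) := by
  unfold nx
  split_ifs with h
  exacts [h, Or.inl rfl]

theorem exists_nx {s a : St} (h : st p s a) : ∃ n, nx p s n = a := by
  obtain ⟨n, rfl⟩ := dec_surj a
  exact ⟨Nat.pair n 0, by simp [nx, h]⟩

theorem nx_inf {T : Type*} (φ : St → T) (p : N × N) (s : St) (n : ℕ) :
    {m | φ (nx p s m) = φ (nx p s n)}.Infinite :=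
  infinite_of_injective_forall_mem (f := Nat.pair n.unpair.1)
    (fun _ _ h => (Nat.pair_eq_pair.1 h).2) fun _ => by
      rw [mem_ofPred_eq, nx, nx, Nat.unpair_pair]

theorem E2_iff : E2 p q ↔ ∃ σ : Equiv.Perm (List ℕ), ∀ a b,
    col (lb q.1 lab (nx q) rt) (σ a) (σ b) = col (lb p.1 lab (nx p) rt) a b := by
  obtain ⟨z, t⟩ := p
  obtain ⟨z', t'⟩ := q
  constructor
  · rintro ⟨rfl : z = z', h⟩
    refine iso_of_rel (B := fun a a' => lab a = lab a' ∧ val (z, t) a = val (z, t') a')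
      ⟨rfl, if_congr h rfl rfl⟩ (fun _ _ h => h.1) fun a a' e => ?_
    refine (perm_of_range (f := fun n => (lab (nx (z, t) a n), val (z, t) (nx (z, t) a n)))
      (g := fun n => (lab (nx (z, t') a' n), val (z, t') (nx (z, t') a' n))) (fun n => ?_)
      (fun n => ?_) (nx_inf (fun s => (lab s, val (z, t) s)) _ _)
      (nx_inf (fun s => (lab s, val (z, t') s)) _ _)).imp fun π hπ n => Prod.ext_iff.1 (hπ n).symm
    · obtain ⟨b, b1, b2⟩ := forth e.1 e.2 (st_nx _ a n)
      obtain ⟨m, rfl⟩ := exists_nx b1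
      exact ⟨m, (Prod.ext b2.1 b2.2).symm⟩
    · obtain ⟨b, b1, b2⟩ := forth e.1.symm e.2.symm (st_nx _ a' n)
      obtain ⟨m, rfl⟩ := exists_nx b1
      exact ⟨m, (Prod.ext b2.1 b2.2).symm⟩
  · rintro ⟨σ, h⟩
    obtain ⟨rfl : z = z', B, b1, b2⟩ := rel_of_iso h
    have : Bis (z, t) (z, t') B := fun s s' e => ⟨(b2 _ _ e).1, fun a ha => by
      obtain ⟨n, rfl⟩ := exists_nx ha
      obtain ⟨m, hm⟩ := (b2 _ _ e).2.1 n
      exact ⟨_, st_nx _ _ m, hm⟩, fun a ha => by
      obtain ⟨n, rfl⟩ := exists_nx ha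
      obtain ⟨m, hm⟩ := (b2 _ _ e).2.2 n
      exact ⟨_, st_nx _ _ m, hm⟩⟩
    exact ⟨rfl, sep_rt this b1, sep_rt this.symm b1⟩

theorem measurable_ch (w w' : W) : Measurable fun p => ch p w w' := by
  refine measurable_const.and (meas_ap ?_ _ _)
  unfold fo
  split_ifs
  exacts [measurable_snd, measurable_fst, measurable_const]

theorem measurable_nx (s : St) (n : ℕ) (b : St) : Measurable fun p => nx p s n = b := by
  have h : Measurable fun p => st p s (dec n.unpair.1) :=
    measurable_const.or (measurable_const.or ((Measurable.exists fun _ => Measurable.exists fun _ =>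
      measurable_const.and (measurable_const.and (measurable_ch _ _))).or
      (Measurable.exists fun _ => Measurable.exists fun _ => Measurable.exists fun _ =>
        Measurable.exists fun _ => measurable_const.and (measurable_const.and
          ((Measurable.forall fun _ => measurable_const.imp (meas_ap measurable_fst _ _)).and
            (((measurable_ch _ _).and (measurable_ch _ _)).or (measurable_ch _ _)))))))
  let : MeasurableSpace St := ⊤
  exact Measurable.eq_const (Measurable.ite h.setOf measurable_const measurable_const) b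

theorem exists_red : ∃ f : N × N → ℕ → ℕ → ℕ, Measurable f ∧ ∀ p q, E2 p q ↔
    ∃ σ : Equiv.Perm ℕ, ∀ a b, f q (σ a) (σ b) = f p a b := by
  let e := (Denumerable.eqv (List ℕ)).symm
  refine ⟨fun p a b => col (lb p.1 lab (nx p) rt) (e a) (e b), measurable_pi_lambda _ fun a =>
    measurable_pi_lambda _ fun b => measurable_col measurable_fst measurable_nx _ _,
    fun p q => E2_iff.trans ⟨fun ⟨σ, h⟩ => ⟨e.trans (σ.trans e.symm), fun a b => ?_⟩,
      fun ⟨σ, h⟩ => ⟨e.symm.trans (σ.trans e), fun a b => ?_⟩⟩⟩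
  · simpa using h (e a) (e b)
  · simpa using h (e.symm a) (e.symm b)

end

end Pool.Agent.P.MP_488d72_lc.Ix
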