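import Mathlib

/-! The Polish group of permutations of `ℕ` and its action on coloured digraphs. -/

set_option autoImplicit false

namespace Pool.Agent.P.MP_488d72_lc.Ix

open Topology

/-- the permutations of `ℕ` -/
def SI : Type := Equiv.Perm ℕ

instance : Group SI := inferInstanceAs (Group (Equiv.Perm ℕ))

/-- the underlying permutation -/
def SI.e (σ : SI) : Equiv.Perm ℕ := σ

/-- a permutation and its inverse -/
def emb (σ : SI) : (ℕ → ℕ) × (ℕ → ℕ) := (σ.e, σ.e.symm)

instance : TopologicalSpace SI := TopologicalSpace.induced emb inferInstance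

theorem cont_ev {X Z : Type} [TopologicalSpace X] [TopologicalSpace Z] {f : X → ℕ → Z} {n : X → ℕ}
    (hf : Continuous f) (hn : Continuous n) : Continuous fun x => f x (n x) :=
  (continuous_prod_of_discrete_right (f := fun p : (ℕ → Z) × ℕ => p.1 p.2)).2
    (fun n => continuous_apply n) |>.comp (hf.prodMk hn)

theorem cont_emb : Continuous emb := continuous_induced_dom

theorem cont_e : Continuous fun σ : SI => (σ.e : ℕ → ℕ) := cont_emb.fst

theorem cont_symm : Continuous fun σ : SI => (σ.e.symm : ℕ → ℕ) := cont_emb.snd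

instance : IsTopologicalGroup SI where
  continuous_mul := continuous_induced_rng.2 (Continuous.prodMk
    (continuous_pi fun n => cont_ev (f := fun p : SI × SI => p.1.e) (n := fun p => p.2.e n)
      (cont_e.comp continuous_fst) ((continuous_apply n).comp (cont_e.comp continuous_snd)))
    (continuous_pi fun n => cont_ev (f := fun p : SI × SI => p.2.e.symm)
      (n := fun p => p.1.e.symm n) (cont_symm.comp continuous_snd)
      ((continuous_apply n).comp (cont_symm.comp continuous_fst))))
  continuous_inv := continuous_induced_rng.2 (cont_symm.prodMk cont_e)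

instance : PolishSpace SI := by
  refine IsClosedEmbedding.polishSpace (f := emb) ⟨⟨⟨rfl⟩, fun σ τ h => ?_⟩, ?_⟩
  · exact Equiv.ext (congrFun (congrArg Prod.fst h))
  · have : Set.range emb = (⋂ a, {w | w.2 (w.1 a) = a}) ∩ ⋂ a, {w | w.1 (w.2 a) = a} := by
      ext w
      simp only [Set.mem_inter_iff, Set.mem_iInter, Set.mem_ofPred_eq]
      exact ⟨fun ⟨σ, h⟩ => h ▸ ⟨σ.e.left_inv, σ.e.right_inv⟩,
        fun ⟨a, b⟩ => ⟨(⟨w.1, w.2, a, b⟩ : Equiv.Perm ℕ), rfl⟩⟩
    rw [this]
    exact (isClosed_iInter fun a => isClosed_eq (cont_ev continuous_snd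
      ((continuous_apply a).comp continuous_fst)) continuous_const).inter
      (isClosed_iInter fun a => isClosed_eq (cont_ev continuous_fst
        ((continuous_apply a).comp continuous_snd)) continuous_const)

instance : MulAction SI (ℕ → ℕ → ℕ) where
  smul σ s := fun a b => s (σ.e.symm a) (σ.e.symm b)
  one_smul _ := rfl
  mul_smul _ _ _ := rfl

instance : ContinuousSMul SI (ℕ → ℕ → ℕ) := ⟨continuous_pi fun a => continuous_pi fun b =>
  cont_ev (f := fun p : SI × (ℕ → ℕ → ℕ) => p.2 (p.1.e.symm a)) (n := fun p => p.1.e.symm b)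
    (cont_ev continuous_snd ((continuous_apply a).comp (cont_symm.comp continuous_fst)))
    ((continuous_apply b).comp (cont_symm.comp continuous_fst))⟩

theorem iso_iff (s s' : ℕ → ℕ → ℕ) :
    (∃ σ : Equiv.Perm ℕ, ∀ a b, s' (σ a) (σ b) = s a b) ↔ ∃ σ : SI, σ • s = s' := by
  refine exists_congr fun σ => ⟨fun h => funext fun a => funext fun b => ?_, ?_⟩
  · change s (σ.symm a) (σ.symm b) = _
    rw [← h, σ.apply_symm_apply, σ.apply_symm_apply]
  · rintro rfl a b
    change s (σ.symm (σ a)) (σ.symm (σ b)) = _
    rw [σ.symm_apply_apply, σ.symm_apply_apply]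

end Pool.Agent.P.MP_488d72_lc.Ix
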