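import Pool.Agent.P.MP_488d72_lc.Ix.V

/-! The topology generated by the Vaught transforms has a Baire property. -/

set_option autoImplicit false

universe u v

namespace Pool.Agent.P.MP_488d72_lc.Ix

open Set Filter Topology TopologicalSpace MeasureTheory

theorem exists_sm (X : Type*) [TopologicalSpace X] [PolishSpace X] :
    ∃ Sm : ℕ → Set X → Set X → Prop, (∀ n A, IsOpen A → ∃ T : Set (Set X), T.Countable ∧
      (∀ B ∈ T, IsOpen B ∧ Sm n A B) ∧ A ⊆ ⋃₀ T) ∧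
      ∀ m (s : ℕ → Set X) (x : ℕ → X), (∀ n, Sm (m + n) (s n) (s (n + 1))) → (∀ n, x n ∈ s n) →
        ∃ g ∈ s 0, Tendsto x atTop (𝓝 g) := by
  let := TopologicalSpace.upgradeIsCompletelyMetrizable X
  refine ⟨fun n A B => closure B ⊆ A ∧ ∀ a ∈ B, ∀ b ∈ B, dist a b ≤ 1 / (n + 1),
    fun n A hA => ⟨{B ∈ countableBasis X | closure B ⊆ A ∧
      ∀ a ∈ B, ∀ b ∈ B, dist a b ≤ 1 / (n + 1)}, (countable_countableBasis X).mono fun _ h => h.1,
      fun B hB => ⟨isOpen_of_mem_countableBasis hB.1, hB.2⟩, fun v hv => ?_⟩,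
    fun m s x hs hx => ?_⟩
  · obtain ⟨r, hr, h⟩ := Metric.nhds_basis_closedBall.mem_iff.1 (hA.mem_nhds hv)
    obtain ⟨B, k1, k2, hk⟩ := (isBasis_countableBasis X).exists_subset_of_mem_open
      (Metric.mem_ball_self (x := v) (lt_min hr (half_pos (Nat.one_div_pos_of_nat (n := n)))))
      Metric.isOpen_ball
    refine ⟨B, ⟨k1, (closure_mono (hk.trans (Metric.ball_subset_ball (min_le_left _ _)))).trans
      (Metric.closure_ball_subset_closedBall.trans h), fun a ha b hb => ?_⟩, k2⟩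
    have h1 := (Metric.mem_ball.1 (hk ha)).trans_le (min_le_right _ _)
    have h2 := (Metric.mem_ball.1 (hk hb)).trans_le (min_le_right _ _)
    linarith [dist_triangle_right a b v]
  · have an : Antitone s := antitone_nat_of_succ_le fun n => subset_closure.trans (hs n).1
    obtain ⟨g, hg⟩ := cauchySeq_tendsto_of_complete (u := x) (Metric.cauchySeq_iff.2 fun ε hε => by
      obtain ⟨n, hn⟩ := exists_nat_one_div_lt hε
      refine ⟨n + 1, fun a ha b hb => (((hs n).2 _ (an ha (hx a)) _ (an hb (hx b))).trans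
        ?_).trans_lt hn⟩
      exact Nat.one_div_le_one_div (Nat.le_add_left n m))
    exact ⟨g, (hs 0).1 (mem_closure_of_tendsto hg
      ((eventually_ge_atTop 1).mono fun a ha => an ha (hx a))), hg⟩

variable {G : Type u} {Y : Type v} [Group G] [TopologicalSpace G] [MulAction G Y]
  [IsTopologicalGroup G] [PolishSpace G] [t0 : TopologicalSpace Y] [hc : ContinuousSMul G Y]
  [MeasurableSpace Y] [hB : BorelSpace Y]

theorem Dl_init {A : Set Y} {U : Set G} {x : Y} (hA : MeasurableSet A) (hU : IsOpen U)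
    (h : x ∈ Dl A U) : ∃ V W : Set G, IsOpen V ∧ IsOpen W ∧ x ∈ Dl (Dl A V) W ∧
      ∀ w, ∀ g ∈ W, g • w ∈ Dl A V → w ∈ Dl A U := by
  obtain ⟨O, h1, ⟨o, ho⟩, h3, h4⟩ := Dl_loc hA hU h
  obtain ⟨V, W, k1, k2, k3, k4, k5⟩ := isOpen_prod_iff.1 (h1.preimage continuous_mul) 1 o
    (by simpa using ho)
  have k6 : ∀ g ∈ W, (· * g⁻¹) ⁻¹' V ⊆ O := fun g hg a ha => by
    simpa using k5 (mk_mem_prod ha hg)
  refine ⟨V, W, k1, k2, mem_Dl k2 ⟨o, k4⟩ Subset.rfl (Eventually.of_forall fun g hg => ?_),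
    fun w g hg e => Dl_mono Subset.rfl ((k6 g hg).trans h3) ((Dl_smul g).1 e)⟩
  exact (Dl_smul g).2 (mem_Dl (k1.preimage (continuous_mul_const _)) ⟨g, by simpa using k3⟩
    Subset.rfl (h4.mono fun a e ha => e (k6 g hg ha)))

theorem isOpen_orb {A : Set Y} {U : Set G} (hA : MeasurableSet A) (hU : IsOpen U) (y : Y) :
    IsOpen {g : G | g • y ∈ Dl A U} := by
  refine isOpen_iff_mem_nhds.2 fun g hg => ?_
  obtain ⟨O, h1, ⟨o, ho⟩, h3, h4⟩ := Dl_loc hA (hU.preimage (continuous_mul_const g⁻¹))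
    ((Dl_smul g).1 hg)
  refine mem_of_superset ((hU.preimage (f := fun k : G => o * k⁻¹) (by fun_prop)).mem_nhds (h3 ho))
    fun k hk => (Dl_smul k).2 ?_
  exact mem_Dl (h1.inter (hU.preimage (continuous_mul_const k⁻¹))) ⟨o, ho, hk⟩ inter_subset_right
    (h4.mono fun a e ha => e ha.1)

variable [hP : PolishSpace Y]

variable (G) in
theorem exists_tau {ι : Type*} [Countable ι] {S : ι → Set Y} (hS : ∀ i, MeasurableSet (S i))
    (hI : ∀ i (g : G) y, g • y ∈ S i ↔ y ∈ S i) :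
    ∃ τ : TopologicalSpace Y, @SecondCountableTopology Y τ ∧
      (∀ O, IsOpen[τ] O → MeasurableSet O) ∧ τ ≤ t0 ∧
      (∀ (g : G) O, IsOpen[τ] O → IsOpen[τ] ((fun y => g • y) ⁻¹' O)) ∧
      (∀ y O, IsOpen[τ] O → IsOpen {g : G | g • y ∈ O}) ∧ (∀ i, IsOpen[τ] (S i)) ∧
      ∀ (P : Set Y) (D : ℕ → Set Y), P.Nonempty → (∀ n, IsOpen[τ] (D n)) →
        (∀ n O, IsOpen[τ] O → (O ∩ P).Nonempty → (O ∩ D n ∩ P).Nonempty) →
        (⋂ n, D n).Nonempty := by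
  obtain ⟨t', hle, ht, h1, h2⟩ := exists_t G hS
  obtain ⟨t, rfl⟩ : ∃ t : Unit → TopologicalSpace Y, t' = t () := ⟨fun _ => t', rfl⟩
  have hm : ∀ A, IsOpen[t ()] A → MeasurableSet A := fun A => meas_of_open hle ht
  have hs : @SecondCountableTopology Y (t ()) := @PolishSpace.toSecondCountableTopology Y _ ht
  let Ok : Set Y × Set G → Prop := fun q => IsOpen[t ()] q.1 ∧ IsOpen q.2
  let F : Set (Set Y) := (fun q : Set Y × Set G => Dl q.1 q.2) '' {q | Ok q}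
  have ho : ∀ q, Ok q → IsOpen[generateFrom F] (Dl q.1 q.2) := fun q hq =>
    isOpen_generateFrom_of_mem ⟨q, hq, rfl⟩
  refine ⟨generateFrom F, ?_, fun O hO => hm O (le_generateFrom (t := t ()) ?_ O hO),
    fun O hO => ?_, fun g => ?_, fun y => ?_, fun i => ?_, fun P D ⟨x0, hx0⟩ hD hd => ?_⟩
  · refine @SecondCountableTopology.mk Y (generateFrom F) ⟨(fun q : Set Y × Set G => Dl q.1 q.2) ''
      (@countableBasis Y (t ()) _ ×ˢ countableBasis G), ((@countable_countableBasis Y (t ()) _).prod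
      (countable_countableBasis G)).image _, le_antisymm (generateFrom_anti (image_mono
      fun q hq => ⟨@isOpen_of_mem_countableBasis Y (t ()) _ _ hq.1,
        isOpen_of_mem_countableBasis hq.2⟩)) (le_generateFrom ?_)⟩
    rintro _ ⟨q, hq, rfl⟩
    exact isOpen_Dl hs (fun A hA U hU => isOpen_generateFrom_of_mem ⟨(A, U), ⟨hA, hU⟩, rfl⟩)
      hq.1 hq.2
  · rintro _ ⟨q, hq, rfl⟩
    exact h2 _ _ hq.1 hq.2
  · refine (@isOpen_iff_forall_mem_open Y (generateFrom F) O).2 fun y hy => ?_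
    obtain ⟨U, O', k1, k2, k3, k4, k5⟩ := isOpen_prod_iff.1 (hO.preimage
      (f := fun p : G × Y => p.1⁻¹ • p.2) (by fun_prop)) 1 y (by simpa using hy)
    refine ⟨Dl O' U, fun x hx => ?_, ho (O', U) ⟨hle _ k2, k1⟩, mem_Dl (W := U ∩ {g | g • y ∈ O'})
      (k1.inter (k2.preimage (continuous_id.smul continuous_const))) ⟨1, k3, by simpa using k4⟩
      inter_subset_left (Eventually.of_forall fun _ e => e.2)⟩
    obtain ⟨g, e1, e2⟩ := Dl_ex hx
    simpa using k5 (mk_mem_prod e1 e2)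
  · refine (@continuous_def Y Y (generateFrom F) (generateFrom F) _).1
      (continuous_generateFrom_iff.2 ?_)
    rintro _ ⟨q, hq, rfl⟩
    have : (fun y => g • y) ⁻¹' Dl q.1 q.2 = Dl q.1 ((· * g⁻¹) ⁻¹' q.2) :=
      Set.ext fun y => Dl_smul g
    exact this ▸ ho (q.1, _) ⟨hq.1, hq.2.preimage (continuous_mul_const _)⟩
  · refine (@continuous_def G Y _ (generateFrom F) fun g => g • y).1
      (continuous_generateFrom_iff.2 ?_)
    rintro _ ⟨q, hq, rfl⟩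
    exact isOpen_orb (hm _ hq.1) hq.2 y
  · have : S i = Dl (S i) (univ : Set G) := Set.ext fun y => ⟨fun h => mem_Dl isOpen_univ
      univ_nonempty Subset.rfl (Eventually.of_forall fun g _ => (hI i g y).2 h), fun h =>
        let ⟨g, _, e⟩ := Dl_ex h; (hI i g y).1 e⟩
    exact this ▸ ho (S i, univ) ⟨h1 i, isOpen_univ⟩
  have good : ∀ O, GenerateOpen F O → ∀ x ∈ O, ∃ Q : Set (Set Y × Set G), Q.Finite ∧
      (∀ q ∈ Q, Ok q ∧ x ∈ Dl q.1 q.2) ∧ ∀ w, (∀ q ∈ Q, ∃ g ∈ q.2, g • w ∈ q.1) → w ∈ O := by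
    intro O hO
    induction hO with
    | basic _ h =>
      obtain ⟨q, hq, rfl⟩ := h
      intro x hx
      obtain ⟨V, W, k1, k2, k3, k4⟩ := Dl_init (hm _ hq.1) hq.2 hx
      refine ⟨{(Dl q.1 V, W)}, finite_singleton _, ?_, fun w hw => ?_⟩
      · rintro _ rfl
        exact ⟨⟨h2 _ _ hq.1 k1, k2⟩, k3⟩
      · obtain ⟨g, e1, e2⟩ := hw _ rfl
        exact k4 w g e1 e2
    | univ => exact fun x _ => ⟨∅, finite_empty, fun _ h => h.elim, fun _ _ => trivial⟩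
    | inter s s' _ _ ih ih' =>
      intro x hx
      obtain ⟨Q, a1, a2, a3⟩ := ih x hx.1
      obtain ⟨Q', b1, b2, b3⟩ := ih' x hx.2
      exact ⟨Q ∪ Q', a1.union b1, fun q hq => hq.elim (a2 q) (b2 q), fun w hw =>
        ⟨a3 w fun q hq => hw q (Or.inl hq), b3 w fun q hq => hw q (Or.inr hq)⟩⟩
    | sUnion T _ ih =>
      rintro x ⟨s, hs, hx⟩
      obtain ⟨Q, a1, a2, a3⟩ := ih s hs x hx
      exact ⟨Q, a1, a2, fun w hw => ⟨s, hs, a3 w hw⟩⟩
  obtain ⟨SY, y1, y2⟩ := @exists_sm Y (t ()) ht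
  obtain ⟨SG, g1, g2⟩ := exists_sm G
  let St := {p : Y × Set (Set Y × Set G) //
    p.1 ∈ P ∧ p.2.Finite ∧ ∀ q ∈ p.2, Ok q ∧ p.1 ∈ Dl q.1 q.2}
  have step : ∀ (n : ℕ) (s : St), ∃ s' : St,
      (∀ q ∈ s.1.2, ∃ q' ∈ s'.1.2, SY n q.1 q'.1 ∧ SG n q.2 q'.2) ∧
        ∀ w, (∀ q ∈ s'.1.2, ∃ g ∈ q.2, g • w ∈ q.1) → w ∈ D n := by
    rintro n ⟨⟨x, Q⟩, hx, hQ, hq⟩
    have : ∀ q ∈ Q, ∃ q' : Set Y × Set G, Ok q' ∧ x ∈ Dl q'.1 q'.2 ∧ SY n q.1 q'.1 ∧
        SG n q.2 q'.2 := fun q h => by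
      obtain ⟨T, a1, a2, a3⟩ := y1 n _ (hq q h).1.1
      obtain ⟨T', b1, b2, b3⟩ := g1 n _ (hq q h).1.2
      obtain ⟨B, c1, V, c2, c3⟩ := Dl_cover a1 b1 a3 b3 (hq q h).2
      exact ⟨(B, V), ⟨(a2 B c1).1, (b2 V c2).1⟩, c3, (a2 B c1).2, (b2 V c2).2⟩
    choose! r r1 r2 r3 using this
    obtain ⟨x', ⟨a1, a2⟩, a3⟩ := hd n (⋂ q ∈ Q, Dl (r q).1 (r q).2)
      (@Set.Finite.isOpen_biInter Y _ (generateFrom F) _ _ hQ fun q h => ho _ (r1 q h))
      ⟨x, mem_iInter₂.2 r2, hx⟩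
    obtain ⟨Q', b1, b2, b3⟩ := good _ (hD n) x' a2
    refine ⟨⟨(x', r '' Q ∪ Q'), a3, (hQ.image r).union b1, ?_⟩,
      fun q h => ⟨r q, Or.inl ⟨q, h, rfl⟩, r3 q h⟩, fun w hw => b3 w fun q h => hw q (Or.inr h)⟩
    rintro _ (⟨q, h, rfl⟩ | h)
    exacts [⟨r1 q h, mem_iInter₂.1 a1 q h⟩, b2 _ h]
  choose nx n1 n2 using step
  have u0 : Ok (univ, univ) := ⟨@isOpen_univ Y (t ()), isOpen_univ⟩
  let s : ℕ → St := fun n => Nat.rec ⟨(x0, {(univ, univ)}), hx0, finite_singleton _, by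
    rintro _ rfl
    exact ⟨u0, mem_Dl isOpen_univ univ_nonempty Subset.rfl
      (Eventually.of_forall fun _ _ => trivial)⟩⟩ nx n
  have lim : ∀ n, ∀ q ∈ (s n).1.2, ∃ g ∈ q.2, ∃ a ∈ q.1,
      Tendsto (fun k => (s k).1.1) atTop (𝓝 (g⁻¹ • a)) := by
    intro n q hq
    choose f f1 f2 using fun k => n1 k (s k)
    let c : ∀ k, {q // q ∈ (s (n + k)).1.2} := fun k => Nat.rec ⟨q, hq⟩
      (fun k c => ⟨f (n + k) c.1 c.2, f1 _ _ _⟩) k
    choose h e1 e2 using fun k => Dl_ex ((s (n + k)).2.2.2 _ (c k).2).2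
    obtain ⟨g, a1, a2⟩ := g2 n (fun k => (c k).1.2) h (fun k => (f2 _ _ (c k).2).2) e1
    obtain ⟨a, b1, b2⟩ := y2 n (fun k => (c k).1.1) _ (fun k => (f2 _ _ (c k).2).1) e2
    refine ⟨g, a1, a, b1, (tendsto_add_atTop_iff_nat n).1 ?_⟩
    simpa [add_comm] using a2.inv.smul (b2.mono_right (nhds_mono hle))
  obtain ⟨g0, -, a0, -, hw⟩ := lim 0 _ rfl
  refine ⟨_, mem_iInter.2 fun n => n2 n (s n) (g0⁻¹ • a0) fun q hq => ?_⟩
  obtain ⟨g, e1, a, e2, e3⟩ := lim (n + 1) q hq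
  exact ⟨g, e1, by rwa [tendsto_nhds_unique hw e3, smul_inv_smul]⟩

end Pool.Agent.P.MP_488d72_lc.Ix
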