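import Mathlib

/-! Labelled full trees as coloured digraphs. -/

set_option autoImplicit false

namespace Pool.Agent.P.MP_488d72_lc.Ix

open Set

noncomputable section

theorem perm_of_range {T : Type*} {f g : ℕ → T} (h1 : ∀ n, ∃ m, g m = f n)
    (h2 : ∀ m, ∃ n, f n = g m) (hf : ∀ n, {m | f m = f n}.Infinite)
    (hg : ∀ n, {m | g m = g n}.Infinite) : ∃ π : Equiv.Perm ℕ, ∀ n, g (π n) = f n := by
  have : ∀ c, Nonempty ({a // f a = c} ≃ {b // g b = c}) := fun c => by
    by_cases h : ∃ n, f n = c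
    · obtain ⟨n, rfl⟩ := h
      obtain ⟨m, hm⟩ := h1 n
      have : Infinite {a // f a = f n} := (hf n).to_subtype
      have : Infinite {b // g b = f n} := hm ▸ (hg m).to_subtype
      exact nonempty_equiv_of_countable
    · have : IsEmpty {a // f a = c} := ⟨fun a => h ⟨_, a.2⟩⟩
      have : IsEmpty {b // g b = c} := ⟨fun b => let ⟨n, hn⟩ := h2 b.1; h ⟨n, hn.trans b.2⟩⟩
      exact ⟨Equiv.equivOfIsEmpty _ _⟩
  exact ⟨Equiv.ofFiberEquiv fun c => (this c).some, Equiv.ofFiberEquiv_map _⟩

open Classical in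
/-- the coloured digraph of a labelling of the full tree -/
def col (L : List ℕ → ℕ) (a b : List ℕ) : ℕ :=
  if a = b then L a + 2 else if ∃ n, b = n :: a then 1 else 0

theorem col_self (L : List ℕ → ℕ) (a : List ℕ) : col L a a = L a + 2 := if_pos rfl

theorem col_one {L : List ℕ → ℕ} {a b : List ℕ} : col L a b = 1 ↔ ∃ n, b = n :: a := by
  unfold col
  split_ifs with h1 h2
  · subst h1
    simp
  · simp [h2]
  · simp [h2]

/-- the state reached along a list -/
def at' {S : Type} (nx : S → ℕ → S) (s : S) : List ℕ → S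
  | [] => s
  | n :: l => nx (at' nx s l) n

/-- the tree map given by permutations at the nodes -/
def tm (P : List ℕ → List ℕ → Equiv.Perm ℕ) : List ℕ → List ℕ
  | [] => []
  | n :: l => P l (tm P l) n :: tm P l

theorem tm_bij (P : List ℕ → List ℕ → Equiv.Perm ℕ) : Function.Bijective (tm P) := by
  refine ⟨fun l => ?_, fun m => ?_⟩
  · induction l with
    | nil => rintro (_ | ⟨n, l⟩) h; exacts [rfl, by simp [tm] at h]
    | cons n l ih =>
      rintro (_ | ⟨n', l'⟩) h
      · simp [tm] at h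
      · simp only [tm, List.cons.injEq] at h
        obtain rfl := ih h.2
        rw [(P l _).injective h.1]
  · induction m with
    | nil => exact ⟨[], rfl⟩
    | cons k m ih =>
      obtain ⟨l, rfl⟩ := ih
      exact ⟨(P l (tm P l)).symm k :: l, by simp [tm]⟩

variable {S : Type} {nx nx' : S → ℕ → S} {s s' : S} {lab : S → ℕ} {z z' : ℕ → ℕ}

/-- the labelling of the full tree: the label of the state and the value of `z` at the depth -/
def lb (z : ℕ → ℕ) (lab : S → ℕ) (nx : S → ℕ → S) (s : S) (l : List ℕ) : ℕ :=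
  Nat.pair (z l.length) (lab (at' nx s l))

theorem iso_of_rel {B : S → S → Prop} (h0 : B s s') (h1 : ∀ a a', B a a' → lab a = lab a')
    (h2 : ∀ a a', B a a' → ∃ π : Equiv.Perm ℕ, ∀ n, B (nx a n) (nx' a' (π n))) :
    ∃ σ : Equiv.Perm (List ℕ), ∀ a b,
      col (lb z lab nx' s') (σ a) (σ b) = col (lb z lab nx s) a b := by
  choose! π hπ using h2
  let P : List ℕ → List ℕ → Equiv.Perm ℕ := fun l m => π (at' nx s l) (at' nx' s' m)
  have k1 : ∀ l, B (at' nx s l) (at' nx' s' (tm P l)) ∧ (tm P l).length = l.length := fun l => by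
    induction l with
    | nil => exact ⟨h0, rfl⟩
    | cons n l ih => exact ⟨hπ _ _ ih.1 n, congrArg (· + 1) ih.2⟩
  refine ⟨Equiv.ofBijective _ (tm_bij P), fun a b => ?_⟩
  simp only [Equiv.ofBijective_apply, col, (tm_bij P).1.eq_iff, lb, (k1 a).2, h1 _ _ (k1 a).1]
  congr 2
  rcases b with _ | ⟨n, b⟩ <;> simp [tm, (tm_bij P).1.eq_iff]

theorem rel_of_iso {σ : Equiv.Perm (List ℕ)}
    (h : ∀ a b, col (lb z' lab nx' s') (σ a) (σ b) = col (lb z lab nx s) a b) :
    z = z' ∧ ∃ B : S → S → Prop, B s s' ∧ ∀ a a', B a a' → lab a = lab a' ∧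
      (∀ n, ∃ n', B (nx a n) (nx' a' n')) ∧ ∀ n', ∃ n, B (nx a n) (nx' a' n') := by
  have k0 : ∀ a b, (∃ n, σ b = n :: σ a) ↔ ∃ n, b = n :: a := fun a b => by
    rw [← col_one (L := lb z' lab nx' s'), h, col_one]
  have k1 : σ [] = [] := by
    rcases e : σ [] with _ | ⟨n, m⟩
    · rfl
    · simpa using (k0 (σ.symm m) []).1 ⟨n, by simpa using e⟩
  have k2 : ∀ l, (σ l).length = l.length := fun l => by
    induction l with
    | nil => rw [k1]
    | cons n l ih =>
      obtain ⟨m, e⟩ := (k0 l (n :: l)).2 ⟨n, rfl⟩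
      simp [e, ih]
  have k3 : ∀ l, z' l.length = z l.length ∧ lab (at' nx' s' (σ l)) = lab (at' nx s l) := fun l => by
    have := h l l
    rw [col_self, col_self, lb, lb, k2] at this
    exact Nat.pair_eq_pair.1 (by omega)
  refine ⟨funext fun n => by simpa using (k3 (List.replicate n 0)).1.symm,
    fun a a' => ∃ l, at' nx s l = a ∧ at' nx' s' (σ l) = a', ⟨[], rfl, by rw [k1]; rfl⟩, ?_⟩
  rintro _ _ ⟨l, rfl, rfl⟩
  refine ⟨(k3 l).2.symm, fun n => ?_, fun n' => ?_⟩
  · obtain ⟨m, e⟩ := (k0 l (n :: l)).2 ⟨n, rfl⟩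
    exact ⟨m, n :: l, rfl, by rw [e]; rfl⟩
  · obtain ⟨n, e⟩ := (k0 l (σ.symm (n' :: σ l))).1 ⟨n', by simp⟩
    exact ⟨n, n :: l, rfl, by rw [← e, Equiv.apply_symm_apply]; rfl⟩

theorem measurable_col {X : Type} [MeasurableSpace X] [Countable S] {z : X → ℕ → ℕ}
    {nx : X → S → ℕ → S} (hz : Measurable z) (h : ∀ a n b, Measurable fun x => nx x a n = b)
    (a b : List ℕ) : Measurable fun x => col (lb (z x) lab (nx x) s) a b := by
  let : MeasurableSpace S := ⊤
  have k1 : ∀ l, Measurable fun x => at' (nx x) s l := fun l => by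
    induction l with
    | nil => exact measurable_const
    | cons n l ih =>
      have : Measurable fun p : X × S => nx p.1 p.2 n := measurable_from_prod_countable_left
        fun a => measurable_to_countable' fun b => (h a n b).setOf
      exact this.comp (measurable_id.prodMk ih)
  unfold col
  split_ifs
  · exact (measurable_of_countable fun p : ℕ × S => Nat.pair p.1 (lab p.2) + 2).comp
      (((measurable_pi_apply _).comp hz).prodMk (k1 a))
  · exact measurable_const
  · exact measurable_const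

end

end Pool.Agent.P.MP_488d72_lc.Ix
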