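import Mathlib

/-! Vaught transforms and a change of topology. -/

set_option autoImplicit false

universe u v

namespace Pool.Agent.P.MP_488d72_lc.Ix

open Set Filter Topology TopologicalSpace MeasureTheory

variable {G : Type u} {Y : Type v} [Group G] [TopologicalSpace G] [MulAction G Y]
  {A A' : Set Y} {U U' : Set G} {y : Y}

/-- The points sent into `A` by non-meagre many elements of `U`. -/
def Dl (A : Set Y) (U : Set G) : Set Y := {y | ∃ᶠ g in residual G, g ∈ U ∧ g • y ∈ A}

theorem Dl_ex (h : y ∈ Dl A U) : ∃ g ∈ U, g • y ∈ A := Frequently.exists h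

theorem Dl_mono (hA : A ⊆ A') (hU : U ⊆ U') : Dl A U ⊆ Dl A' U' :=
  fun _ h => Frequently.mono h fun _ e => ⟨hU e.1, hA e.2⟩

theorem Dl_cover {S : Set (Set Y)} {T : Set (Set G)} (hS : S.Countable) (hT : T.Countable)
    (hA : A ⊆ ⋃₀ S) (hU : U ⊆ ⋃₀ T) (h : y ∈ Dl A U) : ∃ B ∈ S, ∃ V ∈ T, y ∈ Dl B V := by
  by_contra c
  push Not at c
  refine h (((eventually_countable_ball hS).2 fun B hB => (eventually_countable_ball hT).2
    fun V hV => not_frequently.1 (c B hB V hV)).mono fun g hg e => ?_)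
  obtain ⟨B, hB, e1⟩ := hA e.2
  obtain ⟨V, hV, e2⟩ := hU e.1
  exact hg B hB V hV ⟨e2, e1⟩

theorem Dl_smul [IsTopologicalGroup G] (g : G) :
    g • y ∈ Dl A U ↔ y ∈ Dl A ((· * g⁻¹) ⁻¹' U) := by
  unfold Dl
  rw [mem_ofPred_eq, mem_ofPred_eq]
  conv_rhs => rw [← (Homeomorph.mulRight g).residual_map_eq, frequently_map]
  simp [mul_smul]

theorem freq_open {X : Type*} [TopologicalSpace X] [BaireSpace X] {W : Set X} (hW : IsOpen W)
    (ne : W.Nonempty) : ∃ᶠ g in residual X, g ∈ W := fun h => by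
  obtain ⟨x, h1, h2⟩ := (dense_of_mem_residual h).inter_open_nonempty W hW ne
  exact h2 h1

variable [PolishSpace G]

theorem mem_Dl {W : Set G} (hW : IsOpen W) (ne : W.Nonempty) (hU : W ⊆ U)
    (h : ∀ᶠ g in residual G, g ∈ W → g • y ∈ A) : y ∈ Dl A U :=
  ((freq_open hW ne).and_eventually h).mono fun _ e => ⟨hU e.1, e.2 e.1⟩

variable [t0 : TopologicalSpace Y] [hc : ContinuousSMul G Y] [MeasurableSpace Y] [hB : BorelSpace Y]

omit [PolishSpace G] in
theorem Dl_loc (hA : MeasurableSet A) (hU : IsOpen U) (h : y ∈ Dl A U) :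
    ∃ W, IsOpen W ∧ W.Nonempty ∧ W ⊆ U ∧ ∀ᶠ g in residual G, g ∈ W → g • y ∈ A := by
  borelize G
  have hm : MeasurableSet {g : G | g • y ∈ A} :=
    (continuous_id.smul continuous_const : Continuous fun g : G => g • y).measurable hA
  obtain ⟨O, hO, e⟩ := hm.baireMeasurableSet.residualEq_isOpen
  have e' : ∀ᶠ g in residual G, g • y ∈ A ↔ g ∈ O := e.mem_iff
  obtain ⟨g, h1, h2⟩ := (Frequently.and_eventually h e').exists
  exact ⟨O ∩ U, hO.inter hU, ⟨g, h2.1 h1.2, h1.1⟩, inter_subset_right,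
    e'.mono fun _ k k' => k.2 k'.1⟩

theorem measurable_Dl (hA : MeasurableSet A) : ∀ U : Set G, IsOpen U → MeasurableSet (Dl A U) := by
  induction A, hA using MeasurableSet.induction_on_open with
  | isOpen A hA =>
    intro U hU
    have : Dl A U = ⋃ g ∈ U, (fun y : Y => g • y) ⁻¹' A := by
      ext y
      simp only [mem_iUnion, exists_prop, mem_preimage]
      exact ⟨Dl_ex, fun ⟨g, h1, h2⟩ => mem_Dl (W := U ∩ {g | g • y ∈ A})
        (hU.inter (hA.preimage (continuous_id.smul continuous_const))) ⟨g, h1, h2⟩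
        inter_subset_left (Eventually.of_forall fun _ e => e.2)⟩
    rw [this]
    exact (isOpen_biUnion fun g _ => hA.preimage (continuous_const_smul g)).measurableSet
  | compl A hA ih =>
    intro U hU
    have : Dl Aᶜ U = ⋃ W ∈ {W ∈ countableBasis G | W ⊆ U}, (Dl A W)ᶜ := by
      ext y
      simp only [mem_iUnion, exists_prop, mem_ofPred_eq, mem_compl_iff]
      constructor
      · intro h
        obtain ⟨W, h1, ⟨g, hg⟩, h3, h4⟩ := Dl_loc hA.compl hU h
        obtain ⟨V, k1, -, k3⟩ := (isBasis_countableBasis G).exists_subset_of_mem_open hg h1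
        exact ⟨V, ⟨k1, k3.trans h3⟩, fun c => c (h4.mono fun g e e' => e (k3 e'.1) e'.2)⟩
      · rintro ⟨W, ⟨h1, h2⟩, h3⟩
        exact mem_Dl (isOpen_of_mem_countableBasis h1) (nonempty_of_mem_countableBasis h1) h2
          ((not_frequently.1 h3).mono fun g e e1 e2 => e ⟨e1, e2⟩)
    rw [this]
    exact MeasurableSet.biUnion ((countable_countableBasis G).mono fun _ h => h.1)
      fun W hW => (ih W (isOpen_of_mem_countableBasis hW.1)).compl
  | iUnion f _ hf ih =>
    intro U hU
    have : Dl (⋃ i, f i) U = ⋃ i, Dl (f i) U := by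
      refine Subset.antisymm (fun y h => ?_)
        (iUnion_subset fun i => Dl_mono (subset_iUnion f i) Subset.rfl)
      obtain ⟨_, ⟨i, rfl⟩, _, rfl, e⟩ := Dl_cover (countable_range f) (countable_singleton U)
        (sUnion_range f).ge (sUnion_singleton U).ge h
      exact mem_iUnion.2 ⟨i, e⟩
    rw [this]
    exact MeasurableSet.iUnion fun i => ih i U hU

omit hc [MeasurableSpace Y] hB t0 in
/-- it suffices to treat basic sets -/
theorem isOpen_Dl {t t' : TopologicalSpace Y} (ht : @SecondCountableTopology Y t)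
    (h : ∀ A ∈ @countableBasis Y t _, ∀ U ∈ countableBasis G, IsOpen[t'] (Dl A U))
    (hA : IsOpen[t] A) (hU : IsOpen U) : IsOpen[t'] (Dl A U) := by
  have : Dl A U = ⋃ B ∈ {B ∈ @countableBasis Y t _ | B ⊆ A},
      ⋃ V ∈ {V ∈ countableBasis G | V ⊆ U}, Dl B V := by
    refine Subset.antisymm (fun y e => ?_)
      (iUnion₂_subset fun B hB => iUnion₂_subset fun V hV => Dl_mono hB.2 hV.2)
    obtain ⟨B, hB, V, hV, e'⟩ := Dl_cover ((@countable_countableBasis Y t _).mono fun _ h => h.1)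
      ((countable_countableBasis G).mono fun _ h => h.1)
      (@IsTopologicalBasis.open_eq_sUnion' Y t _ (@isBasis_countableBasis Y t _) _ hA).le
      ((isBasis_countableBasis G).open_eq_sUnion' hU).le e
    exact mem_biUnion hB (mem_biUnion hV e')
  rw [this]
  exact @isOpen_biUnion _ _ t' _ _ fun B hB => @isOpen_biUnion _ _ t' _ _ fun V hV =>
    h B hB.1 V hV.1

variable [hP : PolishSpace Y]

omit [Group G] [TopologicalSpace G] [MulAction G Y] [PolishSpace G] hc in
theorem meas_of_open {t : TopologicalSpace Y} (hle : t ≤ t0) (ht : @PolishSpace Y t)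
    (hA : IsOpen[t] A) : MeasurableSet A := by
  rw [hB.measurable_eq, ← borel_eq_borel_of_le ht hP hle]
  exact MeasurableSpace.measurableSet_generateFrom hA

omit [Group G] [TopologicalSpace G] [MulAction G Y] [PolishSpace G] hc in
theorem exists_finer {t : TopologicalSpace Y} (hle : t ≤ t0) (ht : @PolishSpace Y t)
    {ι : Type*} [Countable ι] {S : ι → Set Y} (hS : ∀ i, MeasurableSet (S i)) :
    ∃ t' : TopologicalSpace Y, t' ≤ t ∧ @PolishSpace Y t' ∧ ∀ i, IsOpen[t'] (S i) := by
  have hb : @BorelSpace Y t _ := @BorelSpace.mk Y t _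
    (hB.measurable_eq.trans (borel_eq_borel_of_le ht hP hle).symm)
  choose m h1 h2 _ h4 using fun i => @MeasurableSet.isClopenable Y t ht _ hb _ (hS i)
  obtain ⟨t', k1, k2, k3⟩ := @PolishSpace.exists_polishSpace_forall_le Y ι _ t ht m h1 h2
  exact ⟨t', k2, k3, fun i => k1 i _ (h4 i)⟩

variable (G) in
theorem exists_t {ι : Type*} [Countable ι] {S : ι → Set Y} (hS : ∀ i, MeasurableSet (S i)) :
    ∃ t : TopologicalSpace Y, t ≤ t0 ∧ @PolishSpace Y t ∧ (∀ i, IsOpen[t] (S i)) ∧
      ∀ (A : Set Y) (U : Set G), IsOpen[t] A → IsOpen U → IsOpen[t] (Dl A U) := by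
  have step : ∀ t : {t : TopologicalSpace Y // t ≤ t0 ∧ @PolishSpace Y t},
      ∃ t' : {t : TopologicalSpace Y // t ≤ t0 ∧ @PolishSpace Y t}, t'.1 ≤ t.1 ∧
        ∀ (A : Set Y) (U : Set G), IsOpen[t.1] A → IsOpen U → IsOpen[t'.1] (Dl A U) := by
    rintro ⟨t, hle, ht⟩
    have hs : @SecondCountableTopology Y t := @PolishSpace.toSecondCountableTopology Y t ht
    have := (@countable_countableBasis Y t _).to_subtype
    have := (countable_countableBasis G).to_subtype
    obtain ⟨t', k1, k2, k3⟩ := exists_finer (t0 := t0) (hB := hB) (hP := hP) hle ht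
      (S := fun p : @countableBasis Y t _ × countableBasis G => Dl p.1.1 p.2.1) fun p =>
        measurable_Dl (t0 := t0) (hc := hc) (hB := hB) (meas_of_open (t0 := t0) (hB := hB)
          (hP := hP) hle ht (@isOpen_of_mem_countableBasis Y t _ _ p.1.2)) _
          (isOpen_of_mem_countableBasis p.2.2)
    exact ⟨⟨t', k1.trans hle, k2⟩, k1, fun A U =>
      isOpen_Dl hs fun A hA U hU => k3 (⟨A, hA⟩, ⟨U, hU⟩)⟩
  choose nx h1 h2 using step
  obtain ⟨t1, k1, k2, k3⟩ := exists_finer (t0 := t0) le_rfl inferInstance hS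
  let s : ℕ → {t : TopologicalSpace Y // t ≤ t0 ∧ @PolishSpace Y t} :=
    fun n => Nat.rec ⟨t1, k1, k2⟩ (fun _ => nx) n
  have an : Antitone fun n => (s n).1 := antitone_nat_of_succ_le fun n => h1 (s n)
  refine ⟨⨅ n, (s n).1, (iInf_le _ 0).trans k1,
    PolishSpace.iInf ⟨0, fun n => an n.zero_le⟩ fun n => (s n).2.2,
    fun i => iInf_le (fun n => (s n).1) 0 _ (k3 i), fun A U hA hU => ?_⟩
  have : Dl A U = ⋃ n, Dl (@interior Y (s n).1 A) U := by
    refine Subset.antisymm (fun y e => ?_)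
      (iUnion_subset fun n => Dl_mono (@interior_subset Y (s n).1 A) Subset.rfl)
    obtain ⟨_, ⟨i, rfl⟩, _, rfl, e'⟩ := Dl_cover
      (countable_range fun n => @interior Y (s n).1 A) (countable_singleton U)
      (fun x hx => by
        have := @IsOpen.mem_nhds Y (⨅ n, (s n).1) x A hA hx
        rw [nhds_iInf, mem_iInf_of_directed (Antitone.directed_ge fun a b h =>
          nhds_mono (an h))] at this
        obtain ⟨n, hn⟩ := this
        exact ⟨_, ⟨n, rfl⟩, (@mem_interior_iff_mem_nhds Y (s n).1 x A).2 hn⟩)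
      (sUnion_singleton U).ge e
    exact mem_iUnion.2 ⟨i, e'⟩
  rw [this]
  exact @isOpen_iUnion _ _ (⨅ n, (s n).1) _ fun n => iInf_le (fun n => (s n).1) (n + 1) _
    (h2 (s n) _ U (@isOpen_interior Y (s n).1 A) hU)

end Pool.Agent.P.MP_488d72_lc.Ix
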